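import Mathlib

/-!
# One-variable lemmas for the ball-like neighbourhoods of (closed ball) x (segment)
-/

set_option autoImplicit false

open Set Metric Topology

namespace Pool.Agent.Helper16.OKA
namespace B2

/-- the holomorphic branch of `(1 - s^2)^(-1/2)` on the unit disc -/
noncomputable def q (s : ℂ) : ℂ := Complex.exp (-(1 / 2) * Complex.log (1 - s ^ 2))

/-- the inverse hyperbolic tangent on the unit disc -/
noncomputable def L (s : ℂ) : ℂ := (1 / 2) * Complex.log ((1 + s) / (1 - s))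

theorem re_one_sub_sq {s : ℂ} (hs : ‖s‖ < 1) : 0 < (1 - s ^ 2).re := by
  have h1 : (s ^ 2).re ≤ ‖s ^ 2‖ := Complex.re_le_norm _
  have h2 : ‖s ^ 2‖ < 1 := by
    rw [norm_pow]; nlinarith [norm_nonneg s]
  simp only [Complex.sub_re, Complex.one_re]
  linarith

theorem norm_one_sub_sq {s : ℂ} : 1 - ‖s‖ ^ 2 ≤ ‖1 - s ^ 2‖ := by
  have h := norm_sub_norm_le (1 : ℂ) (s ^ 2)
  rw [norm_one, norm_pow] at h
  exact h

theorem norm_q_sq {s : ℂ} (hs : ‖s‖ < 1) : ‖q s‖ ^ 2 * ‖1 - s ^ 2‖ = 1 := by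
  have hne : (1 - s ^ 2) ≠ 0 := by
    intro h
    have := re_one_sub_sq hs
    rw [h] at this
    simp at this
  have h1 : q s ^ 2 * (1 - s ^ 2) = 1 := by
    unfold q
    rw [← Complex.exp_nat_mul]
    have : ((2 : ℕ) : ℂ) * (-(1 / 2) * Complex.log (1 - s ^ 2)) = -Complex.log (1 - s ^ 2) := by
      push_cast; ring
    rw [this, Complex.exp_neg, Complex.exp_log hne, inv_mul_cancel₀ hne]
  have h2 := congrArg norm h1
  rw [norm_mul, norm_pow, norm_one] at h2
  exact h2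

theorem cosh_re_pos {u : ℂ} (hu : |u.im| < Real.pi / 4) : 0 < (Complex.cosh u).re := by
  have h : (Complex.cosh u).re = Real.cosh u.re * Real.cos u.im := by
    conv_lhs => rw [← Complex.re_add_im u]
    rw [Complex.cosh_add, Complex.cosh_mul_I, Complex.sinh_mul_I, ← Complex.ofReal_cosh,
      ← Complex.ofReal_sinh, ← Complex.ofReal_cos, ← Complex.ofReal_sin]
    simp only [Complex.add_re, Complex.mul_re, Complex.mul_im, Complex.ofReal_re,
      Complex.ofReal_im, Complex.I_re, Complex.I_im]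
    ring
  rw [h]
  have hc : 0 < Real.cos u.im := by
    apply Real.cos_pos_of_mem_Ioo
    have := abs_lt.1 hu
    constructor <;> linarith [Real.pi_pos]
  exact mul_pos (Real.cosh_pos _) hc

theorem one_sub_tanh_sq {u : ℂ} (h : Complex.cosh u ≠ 0) :
    1 - Complex.tanh u ^ 2 = (Complex.cosh u ^ 2)⁻¹ := by
  rw [Complex.tanh_eq_sinh_div_cosh]
  have := Complex.cosh_sq_sub_sinh_sq u
  field_simp
  linear_combination this

theorem q_tanh {u : ℂ} (hu : |u.im| < Real.pi / 4) : q (Complex.tanh u) = Complex.cosh u := by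
  have hre := cosh_re_pos hu
  have hne : Complex.cosh u ≠ 0 := by
    intro h; rw [h] at hre; simp at hre
  unfold q
  rw [one_sub_tanh_sq hne]
  have him : |(Complex.log (Complex.cosh u)).im| < Real.pi / 2 := by
    rw [Complex.log_im]
    exact Complex.abs_arg_lt_pi_div_two_iff.2 (Or.inl hre)
  have h1 : (Complex.cosh u ^ 2)⁻¹ = Complex.exp (-2 * Complex.log (Complex.cosh u)) := by
    have : (-2 : ℂ) * Complex.log (Complex.cosh u)
        = -(((2 : ℕ) : ℂ) * Complex.log (Complex.cosh u)) := by push_cast; ring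
    rw [this, Complex.exp_neg, Complex.exp_nat_mul, Complex.exp_log hne]
  rw [h1, Complex.log_exp]
  · have : -(1 / 2) * (-2 * Complex.log (Complex.cosh u)) = Complex.log (Complex.cosh u) := by
      ring
    rw [this, Complex.exp_log hne]
  · have := abs_lt.1 him
    simp only [Complex.mul_im, Complex.neg_re, Complex.neg_im, Complex.re_ofNat,
      Complex.im_ofNat]
    linarith
  · have := abs_lt.1 him
    simp only [Complex.mul_im, Complex.neg_re, Complex.neg_im, Complex.re_ofNat,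
      Complex.im_ofNat]
    linarith

theorem L_tanh {u : ℂ} (hu : |u.im| < Real.pi / 4) : L (Complex.tanh u) = u := by
  have hre := cosh_re_pos hu
  have hne : Complex.cosh u ≠ 0 := by
    intro h; rw [h] at hre; simp at hre
  have h1 : (1 + Complex.tanh u) / (1 - Complex.tanh u) = Complex.exp (2 * u) := by
    have e1 : 1 + Complex.tanh u = Complex.exp u / Complex.cosh u := by
      rw [Complex.tanh_eq_sinh_div_cosh, ← Complex.cosh_add_sinh]
      field_simp
    have e2 : 1 - Complex.tanh u = Complex.exp (-u) / Complex.cosh u := by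
      rw [Complex.tanh_eq_sinh_div_cosh, ← Complex.cosh_sub_sinh]
      field_simp
    rw [e1, e2, div_div_div_cancel_right₀ hne, ← Complex.exp_sub]
    congr 1
    ring
  unfold L
  rw [h1, Complex.log_exp]
  · ring
  · have := abs_lt.1 hu
    simp only [Complex.mul_im, Complex.re_ofNat, Complex.im_ofNat]
    linarith
  · have := abs_lt.1 hu
    simp only [Complex.mul_im, Complex.re_ofNat, Complex.im_ofNat]
    linarith

theorem one_sub_ne {s : ℂ} (hs : ‖s‖ < 1) : 1 - s ≠ 0 := by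
  intro h
  have : s = 1 := by linear_combination -h
  rw [this, norm_one] at hs
  exact lt_irrefl _ hs

theorem one_add_ne {s : ℂ} (hs : ‖s‖ < 1) : 1 + s ≠ 0 := by
  intro h
  have : s = -1 := by linear_combination h
  rw [this, norm_neg, norm_one] at hs
  exact lt_irrefl _ hs

theorem re_quot {s : ℂ} (hs : ‖s‖ < 1) : 0 < ((1 + s) / (1 - s)).re := by
  have hne := one_sub_ne hs
  have hn : 0 < Complex.normSq (1 - s) := Complex.normSq_pos.2 hne
  rw [Complex.div_re, ← add_div]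
  apply div_pos _ hn
  have h1 : s.re ^ 2 + s.im ^ 2 < 1 := by
    have : ‖s‖ ^ 2 = s.re ^ 2 + s.im ^ 2 := by
      rw [← Complex.normSq_eq_norm_sq, Complex.normSq_apply]; ring
    rw [← this]
    nlinarith [norm_nonneg s]
  simp only [Complex.add_re, Complex.sub_re, Complex.add_im, Complex.sub_im, Complex.one_re,
    Complex.one_im]
  nlinarith

theorem im_L {s : ℂ} (hs : ‖s‖ < 1) : |(L s).im| < Real.pi / 4 := by
  have h : |((1 + s) / (1 - s)).arg| < Real.pi / 2 :=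
    Complex.abs_arg_lt_pi_div_two_iff.2 (Or.inl (re_quot hs))
  have h2 : (L s).im = (1 / 2) * ((1 + s) / (1 - s)).arg := by
    unfold L
    rw [show ((1 : ℂ) / 2) = (((1 / 2 : ℝ)) : ℂ) by push_cast; rfl, Complex.im_ofReal_mul,
      Complex.log_im]
  rw [h2, abs_mul]
  rw [abs_of_pos (by norm_num : (0 : ℝ) < 1 / 2)]
  linarith

theorem re_L {s : ℂ} (hs : ‖s‖ < 1) :
    |(L s).re| ≤ (1 / 2) * Real.log (4 / (1 - ‖s‖ ^ 2)) := by
  have hne := one_sub_ne hs
  have hne' := one_add_ne hs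
  have h1 : (L s).re = (1 / 2) * Real.log ‖(1 + s) / (1 - s)‖ := by
    unfold L
    rw [show ((1 : ℂ) / 2) = (((1 / 2 : ℝ)) : ℂ) by push_cast; rfl, Complex.re_ofReal_mul,
      Complex.log_re]
  have hp : 0 < ‖(1 + s) / (1 - s)‖ := norm_pos_iff.2 (div_ne_zero hne' hne)
  have hs0 := norm_nonneg s
  have hd : 0 < 1 - ‖s‖ ^ 2 := by nlinarith
  have key : ∀ a b : ℂ, a = 1 + s ∧ b = 1 - s ∨ a = 1 - s ∧ b = 1 + s →
      ‖a / b‖ ≤ 4 / (1 - ‖s‖ ^ 2) := by
    intro a b hab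
    have ha : ‖a‖ ≤ 1 + ‖s‖ := by
      rcases hab with ⟨h, -⟩ | ⟨h, -⟩
      · rw [h]; exact (norm_add_le _ _).trans (by rw [norm_one])
      · rw [h]; exact (norm_sub_le _ _).trans (by rw [norm_one])
    have hb : 1 - ‖s‖ ≤ ‖b‖ := by
      rcases hab with ⟨-, h⟩ | ⟨-, h⟩
      · rw [h]
        have := norm_sub_norm_le (1 : ℂ) s
        rwa [norm_one] at this
      · rw [h]
        have := norm_sub_norm_le (1 : ℂ) (-s)
        rwa [norm_one, norm_neg, sub_neg_eq_add] at this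
    rw [norm_div, div_le_div_iff₀ (by linarith) hd]
    have h3 : ‖a‖ * (1 - ‖s‖ ^ 2) ≤ (1 + ‖s‖) * (1 - ‖s‖ ^ 2) :=
      mul_le_mul_of_nonneg_right ha hd.le
    have h4 : (4 : ℝ) * (1 - ‖s‖) ≤ 4 * ‖b‖ := by linarith
    refine h3.trans (le_trans ?_ h4)
    have h5 : (1 + ‖s‖) * (1 - ‖s‖ ^ 2) = (1 + ‖s‖) ^ 2 * (1 - ‖s‖) := by ring
    rw [h5]
    apply mul_le_mul_of_nonneg_right _ (by linarith)
    nlinarith
  have hu : Real.log ‖(1 + s) / (1 - s)‖ ≤ Real.log (4 / (1 - ‖s‖ ^ 2)) :=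
    Real.log_le_log hp (key _ _ (Or.inl ⟨rfl, rfl⟩))
  have hl : -Real.log ‖(1 + s) / (1 - s)‖ ≤ Real.log (4 / (1 - ‖s‖ ^ 2)) := by
    rw [← Real.log_inv, ← norm_inv, inv_div]
    exact Real.log_le_log (norm_pos_iff.2 (div_ne_zero hne hne')) (key _ _ (Or.inr ⟨rfl, rfl⟩))
  rw [h1, abs_le]
  constructor <;> linarith

theorem differentiableAt_q {s : ℂ} (hs : ‖s‖ < 1) : DifferentiableAt ℂ q s := by
  unfold q
  have : DifferentiableAt ℂ (fun s : ℂ => Complex.log (1 - s ^ 2)) s := by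
    apply DifferentiableAt.clog
    · fun_prop
    · exact Or.inl (re_one_sub_sq hs)
  fun_prop

theorem differentiableAt_L {s : ℂ} (hs : ‖s‖ < 1) : DifferentiableAt ℂ L s := by
  unfold L
  have : DifferentiableAt ℂ (fun s : ℂ => Complex.log ((1 + s) / (1 - s))) s := by
    apply DifferentiableAt.clog
    · have := one_sub_ne hs
      fun_prop (disch := assumption)
    · exact Or.inl (re_quot hs)
  fun_prop

/-- the map is close to the sphere only -/
theorem norm_real {H : Type*} [NormedAddCommGroup H] [InnerProductSpace ℂ H] {κ θ : ℝ}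
    (hκ : 0 < κ) (hθ : 0 < θ) (hθ1 : θ < 1) {w : H} (hw : ‖w‖ ≤ 1) {z : ℂ} (hz : z.im = 0)
    (hz1 : |z.re| ≤ 1) :
    ‖((1 - θ : ℝ) : ℂ) • (Complex.cosh (κ * z))⁻¹ • w‖ ^ 2 + ‖Complex.tanh (κ * z)‖ ^ 2 ≤
      1 - θ / Real.cosh κ ^ 2 := by
  obtain ⟨x, rfl⟩ : ∃ x : ℝ, z = x := ⟨z.re, by apply Complex.ext <;> simp [hz]⟩
  rw [Complex.ofReal_re] at hz1
  rw [← Complex.ofReal_mul, ← Complex.ofReal_cosh, ← Complex.ofReal_tanh, ← Complex.ofReal_inv,
    norm_smul, norm_smul, Complex.norm_real, Complex.norm_real, Complex.norm_real,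
    Real.norm_eq_abs, Real.norm_eq_abs, Real.norm_eq_abs, sq_abs,
    abs_of_pos (by linarith : (0 : ℝ) < 1 - θ), abs_of_pos (inv_pos.2 (Real.cosh_pos _)),
    Real.tanh_eq_sinh_div_cosh]
  set c := Real.cosh (κ * x) with hc
  have hc0 : 0 < c := Real.cosh_pos _
  have hcC : c ≤ Real.cosh κ := by
    rw [hc, Real.cosh_le_cosh, abs_mul, abs_of_pos hκ]
    nlinarith [abs_nonneg x]
  have hs : Real.sinh (κ * x) ^ 2 = c ^ 2 - 1 := by
    have := Real.cosh_sq (κ * x)
    rw [hc]; linarith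
  rw [div_pow, hs]
  have h1 : ((1 - θ) * (c⁻¹ * ‖w‖)) ^ 2 ≤ (1 - θ) * (c⁻¹) ^ 2 := by
    have e : ((1 - θ) * (c⁻¹ * ‖w‖)) ^ 2 = ((1 - θ) ^ 2 * ‖w‖ ^ 2) * (c⁻¹) ^ 2 := by ring
    rw [e]
    apply mul_le_mul_of_nonneg_right _ (by positivity)
    have h3 : ‖w‖ ^ 2 ≤ 1 := by nlinarith [norm_nonneg w]
    nlinarith [norm_nonneg w, mul_nonneg (by linarith : (0 : ℝ) ≤ 1 - θ) (sq_nonneg ‖w‖)]
  have h2 : (c ^ 2 - 1) / c ^ 2 = 1 - (c⁻¹) ^ 2 := by
    field_simp
  have h3 : θ / Real.cosh κ ^ 2 ≤ θ * (c⁻¹) ^ 2 := by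
    rw [inv_pow, ← div_eq_mul_inv]
    apply div_le_div_of_nonneg_left hθ.le (by positivity)
    apply pow_le_pow_left₀ hc0.le hcC
  rw [h2]
  nlinarith

end B2
end Pool.Agent.Helper16.OKA
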