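import Pool.Agent.Helper74.OKA.Defs
import Pool.Agent.Helper74.OKA.St.B1
import Pool.Agent.Helper16.OKA.B2Aux

/-!
# B2: (closed ball) x (segment) is ball-like
-/

set_option autoImplicit false

open Set Metric Topology

namespace Pool.Agent.Helper16.OKA

open Pool.Agent.Helper74.OKA
namespace B2

variable {H : Type} [NormedAddCommGroup H] [InnerProductSpace ℂ H]

theorem mem_thickening {δ : ℝ} (hδ : 0 < δ) {w : H} {z : ℂ} (hw : ‖w‖ < 1 + δ)
    (hz : |z.im| < δ / 2) (hz' : |z.re| < 1 + δ / 2) :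
    (w, z) ∈ thickening δ (closedBall (0 : H) 1 ×ˢ seg : Set (H × ℂ)) := by
  rw [mem_thickening_iff]
  have h1 : (0 : ℝ) < 1 + δ := by linarith
  have h2 : (0 : ℝ) < 1 + δ / 2 := by linarith
  have hwn := norm_nonneg w
  refine ⟨((((1 + δ)⁻¹ : ℝ) : ℂ) • w, (((1 + δ / 2)⁻¹ * z.re : ℝ) : ℂ)), ⟨?_, ?_⟩, ?_⟩
  · rw [mem_closedBall_zero_iff, norm_smul, Complex.norm_real, Real.norm_eq_abs,
      abs_of_pos (inv_pos.2 h1), inv_mul_le_iff₀ h1]
    linarith
  · refine ⟨Complex.ofReal_im _, ?_⟩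
    rw [Complex.ofReal_re, abs_mul, abs_of_pos (inv_pos.2 h2), inv_mul_le_iff₀ h2]
    linarith
  · rw [Prod.dist_eq, max_lt_iff]
    constructor
    · rw [dist_eq_norm]
      have e : w - (((1 + δ)⁻¹ : ℝ) : ℂ) • w = ((δ / (1 + δ) : ℝ) : ℂ) • w := by
        have h5 : w - (((1 + δ)⁻¹ : ℝ) : ℂ) • w = ((1 : ℂ) - (((1 + δ)⁻¹ : ℝ) : ℂ)) • w := by
          rw [sub_smul, one_smul]
        rw [h5]
        congr 1
        push_cast
        have : (1 : ℂ) + δ ≠ 0 := by exact_mod_cast h1.ne'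
        field_simp
        ring
      rw [e, norm_smul, Complex.norm_real, Real.norm_eq_abs, abs_of_pos (by positivity),
        div_mul_eq_mul_div, div_lt_iff₀ h1]
      exact mul_lt_mul_of_pos_left hw hδ
    · rw [dist_eq_norm]
      have h3 : |(1 + δ / 2)⁻¹ * z.re - z.re| < δ / 2 := by
        have : (1 + δ / 2)⁻¹ * z.re - z.re = -((δ / 2) / (1 + δ / 2) * z.re) := by
          field_simp; ring
        rw [this, abs_neg, abs_mul, abs_of_pos (by positivity), div_mul_eq_mul_div,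
          div_lt_iff₀ h2]
        exact mul_lt_mul_of_pos_left hz' (by linarith)
      have h4 := Complex.norm_le_abs_re_add_abs_im (z - (((1 + δ / 2)⁻¹ * z.re : ℝ) : ℂ))
      simp only [Complex.sub_re, Complex.sub_im, Complex.ofReal_re, Complex.ofReal_im,
        sub_zero] at h4
      rw [abs_sub_comm] at h4
      linarith

/-- the chart, before rescaling -/
noncomputable def Phi0 (θ κ : ℝ) (p : H × ℂ) : H × ℂ :=
  ((((1 - θ)⁻¹ : ℝ) : ℂ) • q p.2 • p.1, ((κ⁻¹ : ℝ) : ℂ) * L p.2)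

/-- a family of maps into the ball -/
noncomputable def Psi0 (θ : ℝ) (f g : ℂ → ℂ) (p : H × ℂ) : H × ℂ :=
  (((1 - θ : ℝ) : ℂ) • f p.2 • p.1, g p.2)

theorem Phi0_Psi0 {θ κ : ℝ} (hθ : θ < 1) (hκ : 0 < κ) {p : H × ℂ}
    (hp : |p.2.im| < Real.pi / (4 * κ)) :
    Phi0 θ κ (Psi0 θ (fun z => (Complex.cosh (κ * z))⁻¹) (fun z => Complex.tanh (κ * z)) p)
      = p := by
  have hu : |((κ : ℂ) * p.2).im| < Real.pi / 4 := by
    rw [Complex.im_ofReal_mul, abs_mul, abs_of_pos hκ]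
    rw [lt_div_iff₀ (by positivity)] at hp
    linarith
  have hre := cosh_re_pos hu
  have hne : Complex.cosh (κ * p.2) ≠ 0 := by
    intro h; rw [h] at hre; simp at hre
  unfold Phi0 Psi0
  simp only
  rw [q_tanh hu, L_tanh hu]
  have hθ' : ((1 - θ : ℝ) : ℂ) ≠ 0 := by
    have : (1 - θ) ≠ 0 := by linarith
    exact_mod_cast this
  have hκ' : (κ : ℂ) ≠ 0 := by exact_mod_cast hκ.ne'
  apply Prod.ext
  · simp only
    rw [smul_smul, smul_smul, smul_smul]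
    have : (((1 - θ)⁻¹ : ℝ) : ℂ) * Complex.cosh (κ * p.2) * ((1 - θ : ℝ) : ℂ) *
        (Complex.cosh (κ * p.2))⁻¹ = 1 := by
      rw [Complex.ofReal_inv]
      field_simp
    rw [this, one_smul]
  · simp only
    rw [Complex.ofReal_inv]
    field_simp

/-- size of the chart -/
theorem Phi0_bound {θ κ ρ : ℝ} (hθ : 0 < θ) (hθ1 : θ < 1) (hκ : 0 < κ) (hρ : 0 < ρ)
    {p : H × ℂ} (hp : ‖p.1‖ ^ 2 + ‖p.2‖ ^ 2 < 1 - ρ) :
    ‖(Phi0 θ κ p).1‖ < (1 - θ)⁻¹ ∧ |(Phi0 θ κ p).2.im| < Real.pi / (4 * κ) ∧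
      |(Phi0 θ κ p).2.re| ≤ κ⁻¹ * ((1 / 2) * Real.log (4 / ρ)) := by
  have h2 : ‖p.2‖ ^ 2 < 1 - ρ := by nlinarith [sq_nonneg ‖p.1‖]
  have hs : ‖p.2‖ < 1 := by nlinarith [norm_nonneg p.2]
  have hθ' : 0 < (1 - θ)⁻¹ := inv_pos.2 (by linarith)
  refine ⟨?_, ?_, ?_⟩
  · unfold Phi0
    simp only
    rw [norm_smul, norm_smul, Complex.norm_real, Real.norm_eq_abs, abs_of_pos hθ']
    have h3 : ‖q p.2‖ * ‖p.1‖ < 1 := by
      have e1 := norm_q_sq hs
      have e2 := norm_one_sub_sq (s := p.2)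
      have e3 : ‖p.1‖ ^ 2 < ‖1 - p.2 ^ 2‖ := by linarith
      have hq : 0 < ‖q p.2‖ ^ 2 := by
        by_contra hcon
        have : ‖q p.2‖ ^ 2 = 0 := le_antisymm (not_lt.1 hcon) (sq_nonneg _)
        rw [this, zero_mul] at e1
        exact zero_ne_one e1
      have e4 : (‖q p.2‖ * ‖p.1‖) ^ 2 < 1 := by
        rw [mul_pow, ← e1]
        exact mul_lt_mul_of_pos_left e3 hq
      nlinarith [mul_nonneg (norm_nonneg (q p.2)) (norm_nonneg p.1)]
    calc (1 - θ)⁻¹ * (‖q p.2‖ * ‖p.1‖) < (1 - θ)⁻¹ * 1 := mul_lt_mul_of_pos_left h3 hθ'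
      _ = (1 - θ)⁻¹ := mul_one _
  · unfold Phi0
    simp only
    rw [Complex.im_ofReal_mul, abs_mul, abs_of_pos (inv_pos.2 hκ)]
    have := im_L hs
    rw [inv_mul_lt_iff₀ hκ]
    calc |(L p.2).im| < Real.pi / 4 := this
      _ = κ * (Real.pi / (4 * κ)) := by field_simp
  · unfold Phi0
    simp only
    rw [Complex.re_ofReal_mul, abs_mul, abs_of_pos (inv_pos.2 hκ)]
    apply mul_le_mul_of_nonneg_left _ (inv_pos.2 hκ).le
    refine (re_L hs).trans ?_
    apply mul_le_mul_of_nonneg_left _ (by norm_num)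
    apply Real.log_le_log (by apply div_pos (by norm_num); linarith)
    apply div_le_div_of_nonneg_left (by norm_num) hρ
    linarith

theorem differentiableAt_Phi0 {θ κ : ℝ} {p : H × ℂ} (hp : ‖p.2‖ < 1) :
    DifferentiableAt ℂ (Phi0 θ κ : H × ℂ → H × ℂ) p := by
  unfold Phi0
  have hq : DifferentiableAt ℂ (fun p : H × ℂ => q p.2) p :=
    (differentiableAt_q hp).comp p differentiableAt_snd
  have hL : DifferentiableAt ℂ (fun p : H × ℂ => L p.2) p :=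
    (differentiableAt_L hp).comp p differentiableAt_snd
  apply DifferentiableAt.prodMk
  · exact (hq.smul differentiableAt_fst).const_smul _
  · exact hL.const_mul _

omit [InnerProductSpace ℂ H] in
theorem norm_symm_le (x : H) (y : ℂ) : ‖(WithLp.toLp 2 (x, y) : WithLp 2 (H × ℂ))‖ ≤
    ‖x‖ + ‖y‖ := by
  have h := WithLp.prod_norm_sq_eq_of_L2 (WithLp.toLp 2 (x, y) : WithLp 2 (H × ℂ))
  simp only [WithLp.toLp_fst, WithLp.toLp_snd] at h
  have := norm_nonneg (WithLp.toLp 2 (x, y) : WithLp 2 (H × ℂ))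
  nlinarith [norm_nonneg x, norm_nonneg y, mul_nonneg (norm_nonneg x) (norm_nonneg y)]

end B2

open B2 in
/-- B2: closed ball times segment -/
theorem ballLike_ball_seg {H : Type} [NormedAddCommGroup H] [InnerProductSpace ℂ H]
    [FiniteDimensional ℂ H] : BallLike (closedBall (0 : H) 1 ×ˢ seg : Set (H × ℂ)) := by
  intro U hU hKU
  have : ProperSpace H := FiniteDimensional.proper ℂ H
  have hseg : IsCompact seg := by
    have : seg = (fun x : ℝ => (x : ℂ)) '' Icc (-1) 1 := by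
      ext z
      constructor
      · rintro ⟨h1, h2⟩
        exact ⟨z.re, abs_le.1 h2, by apply Complex.ext <;> simp [h1]⟩
      · rintro ⟨x, hx, rfl⟩
        exact ⟨Complex.ofReal_im _, by rw [Complex.ofReal_re]; exact abs_le.2 hx⟩
    rw [this]
    exact isCompact_Icc.image Complex.continuous_ofReal
  have hK : IsCompact (closedBall (0 : H) 1 ×ˢ seg : Set (H × ℂ)) :=
    (isCompact_closedBall 0 1).prod hseg
  obtain ⟨δ, hδ, hδU⟩ := hK.exists_thickening_subset_open hU hKU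
  -- parameters
  obtain ⟨θ, hθ, hθ1, hθ2⟩ : ∃ θ : ℝ, 0 < θ ∧ θ ≤ 1 / 2 ∧ (1 - θ)⁻¹ ≤ 1 + δ := by
    refine ⟨min (1 / 2) (δ / 4), by positivity, min_le_left _ _, ?_⟩
    have h1 : min (1 / 2) (δ / 4) ≤ 1 / 2 := min_le_left _ _
    have h2 : min (1 / 2) (δ / 4) ≤ δ / 4 := min_le_right _ _
    have h3 : 0 < min (1 / 2) (δ / 4) := by positivity
    set θ := min (1 / 2) (δ / 4)
    rw [inv_le_comm₀ (by linarith) (by linarith)]
    rw [inv_le_iff_one_le_mul₀ (by linarith)]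
    nlinarith
  have hlog : 0 < Real.log (16 / θ) := by
    apply Real.log_pos
    rw [one_lt_div hθ]
    linarith
  obtain ⟨κ, hκ, hκ1, hκ2⟩ : ∃ κ : ℝ, 0 < κ ∧ Real.pi / (4 * κ) < δ / 2 ∧
      κ⁻¹ * ((1 / 2) * Real.log (16 / θ)) < δ / 2 := by
    have hA : 0 < Real.pi + Real.log (16 / θ) := by have := Real.pi_pos; linarith
    refine ⟨(Real.pi + Real.log (16 / θ)) / δ, by positivity, ?_, ?_⟩
    · rw [div_lt_iff₀ (by positivity)]
      have : δ / 2 * (4 * ((Real.pi + Real.log (16 / θ)) / δ)) =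
        2 * (Real.pi + Real.log (16 / θ)) := by field_simp; ring
      rw [this]
      have := Real.pi_pos
      linarith
    · rw [inv_mul_lt_iff₀ (by positivity)]
      have : (Real.pi + Real.log (16 / θ)) / δ * (δ / 2) =
        (1 / 2) * (Real.pi + Real.log (16 / θ)) := by field_simp
      rw [this]
      have := Real.pi_pos
      linarith
  set C := Real.cosh κ with hC
  have hC1 : 1 ≤ C := Real.one_le_cosh κ
  have hC2 : C ≤ Real.exp κ := by
    rw [hC, Real.cosh_eq]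
    have : Real.exp (-κ) ≤ Real.exp κ := Real.exp_le_exp.2 (by linarith)
    linarith
  set t := θ / C ^ 2 with ht
  have ht0 : 0 < t := by positivity
  have ht1 : t ≤ 1 / 2 := by
    rw [ht, div_le_iff₀ (by positivity)]
    nlinarith
  -- radii
  set r := Real.sqrt (1 - t / 2) with hr
  set r' := Real.sqrt (1 - t / 4) with hr'
  set r₀ := Real.sqrt (1 - 3 * t / 4) with hr₀
  have hrsq : r ^ 2 = 1 - t / 2 := Real.sq_sqrt (by linarith)
  have hr'sq : r' ^ 2 = 1 - t / 4 := Real.sq_sqrt (by linarith)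
  have hr₀sq : r₀ ^ 2 = 1 - 3 * t / 4 := Real.sq_sqrt (by linarith)
  have hr0 : 0 < r := Real.sqrt_pos.2 (by linarith)
  have hr'0 : 0 < r' := Real.sqrt_pos.2 (by linarith)
  have hr₀0 : 0 < r₀ := Real.sqrt_pos.2 (by linarith)
  have hrr' : r < r' := (sq_lt_sq₀ hr0.le hr'0.le).1 (by rw [hrsq, hr'sq]; linarith)
  have hr₀r : r₀ < r := (sq_lt_sq₀ hr₀0.le hr0.le).1 (by rw [hr₀sq, hrsq]; linarith)
  let e : WithLp 2 (H × ℂ) ≃L[ℂ] H × ℂ := WithLp.prodContinuousLinearEquiv 2 ℂ H ℂ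
  let Φ : WithLp 2 (H × ℂ) → H × ℂ := fun x => Phi0 θ κ (e ((r : ℂ) • x))
  let V : Set (WithLp 2 (H × ℂ)) := {x | r * ‖x‖ < r'}
  have hV : IsOpen V := isOpen_lt (by fun_prop) continuous_const
  have hVball : closedBall (0 : WithLp 2 (H × ℂ)) 1 ⊆ V := by
    intro x hx
    rw [mem_closedBall_zero_iff] at hx
    show r * ‖x‖ < r'
    nlinarith
  have hVsq : ∀ x ∈ V, ‖(e ((r : ℂ) • x)).1‖ ^ 2 + ‖(e ((r : ℂ) • x)).2‖ ^ 2 < 1 - t / 4 := by
    intro x hx
    have h := WithLp.prod_norm_sq_eq_of_L2 ((r : ℂ) • x)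
    have h2 : ‖(r : ℂ) • x‖ = r * ‖x‖ := by
      rw [norm_smul, Complex.norm_real, Real.norm_eq_abs, abs_of_pos hr0]
    rw [h2] at h
    change ‖((r : ℂ) • x).fst‖ ^ 2 + ‖((r : ℂ) • x).snd‖ ^ 2 < _
    rw [← h, ← hr'sq]
    have hx' : r * ‖x‖ < r' := hx
    exact (sq_lt_sq₀ (by positivity) hr'0.le).2 hx'
  have hΦdiff : DifferentiableOn ℂ Φ V := by
    intro x hx
    have h1 := hVsq x hx
    have h2 : ‖(e ((r : ℂ) • x)).2‖ < 1 := by
      have := sq_nonneg ‖(e ((r : ℂ) • x)).1‖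
      nlinarith [norm_nonneg (e ((r : ℂ) • x)).2]
    have h3 : DifferentiableAt ℂ (fun x : WithLp 2 (H × ℂ) => e ((r : ℂ) • x)) x := by
      fun_prop
    exact ((differentiableAt_Phi0 h2).comp x h3).differentiableWithinAt
  have hΦmaps : MapsTo Φ V U := by
    intro x hx
    obtain ⟨h1, h2, h3⟩ := Phi0_bound hθ (by linarith) hκ (by positivity : 0 < t / 4) (hVsq x hx)
    apply hδU
    have h4 : (Φ x) = ((Phi0 θ κ (e ((r : ℂ) • x))).1, (Phi0 θ κ (e ((r : ℂ) • x))).2) := rfl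
    rw [h4]
    apply mem_thickening hδ (lt_of_lt_of_le h1 hθ2) (h2.trans hκ1)
    refine lt_of_le_of_lt h3 ?_
    have h5 : Real.log (4 / (t / 4)) ≤ 2 * κ + Real.log (16 / θ) := by
      have h6 : 4 / (t / 4) = C ^ 2 * (16 / θ) := by
        rw [ht]; field_simp; ring
      rw [h6, Real.log_mul (by positivity) (by positivity), Real.log_pow]
      have h7 : Real.log C ≤ κ := by
        rw [← Real.log_exp κ]
        exact Real.log_le_log (by positivity) hC2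
      push_cast
      linarith
    calc κ⁻¹ * (1 / 2 * Real.log (4 / (t / 4))) ≤ κ⁻¹ * (1 / 2 * (2 * κ + Real.log (16 / θ))) := by
          apply mul_le_mul_of_nonneg_left _ (inv_pos.2 hκ).le
          apply mul_le_mul_of_nonneg_left h5 (by norm_num)
      _ = 1 + κ⁻¹ * (1 / 2 * Real.log (16 / θ)) := by field_simp
      _ < 1 + δ / 2 := by linarith
  -- the neighbourhood
  obtain ⟨W₁, hW₁, hsegW₁, hW₁im, happ⟩ := entire_approx κ hκ
  let c₀ : ℂ → ℂ := fun z => (Complex.cosh (κ * z))⁻¹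
  let t₀ : ℂ → ℂ := fun z => Complex.tanh (κ * z)
  have hcosh : ∀ z ∈ W₁, Complex.cosh (κ * z) ≠ 0 := by
    intro z hz h
    have hu : |((κ : ℂ) * z).im| < Real.pi / 4 := by
      have hp := hW₁im z hz
      rw [Complex.im_ofReal_mul, abs_mul, abs_of_pos hκ]
      rw [lt_div_iff₀ (by positivity)] at hp
      linarith
    have hre := cosh_re_pos hu
    rw [h] at hre
    simp at hre
  let S : Set (H × ℂ) := {p | p.2 ∈ W₁}
  have hS : IsOpen S := hW₁.preimage continuous_snd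
  let N : H × ℂ → ℝ := fun p => ‖(Psi0 θ c₀ t₀ p).1‖ ^ 2 + ‖(Psi0 θ c₀ t₀ p).2‖ ^ 2
  have hN : ContinuousOn N S := by
    have h1 : ContinuousOn (fun p : H × ℂ => c₀ p.2) S := by
      apply ContinuousOn.inv₀
      · fun_prop
      · intro p hp; exact hcosh _ hp
    have h2 : ContinuousOn (fun p : H × ℂ => t₀ p.2) S := by
      have : (fun p : H × ℂ => t₀ p.2) = fun p : H × ℂ =>
          Complex.sinh (κ * p.2) / Complex.cosh (κ * p.2) := by
        funext p; exact Complex.tanh_eq_sinh_div_cosh _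
      rw [this]
      apply ContinuousOn.div
      · fun_prop
      · fun_prop
      · intro p hp; exact hcosh _ hp
    have h3 : ContinuousOn (fun p : H × ℂ => ((1 - θ : ℝ) : ℂ) • c₀ p.2 • p.1) S :=
      (h1.smul continuousOn_fst).const_smul _
    exact (h3.norm.pow 2).add (h2.norm.pow 2)
  let W : Set (H × ℂ) := (U ∩ {p | ‖p.1‖ < 2}) ∩ (S ∩ N ⁻¹' Iio (1 - 3 * t / 4))
  have hWo : IsOpen W := by
    apply IsOpen.inter
    · exact hU.inter (isOpen_lt (by fun_prop) continuous_const)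
    · exact hN.isOpen_inter_preimage hS isOpen_Iio
  have hKW : (closedBall (0 : H) 1 ×ˢ seg : Set (H × ℂ)) ⊆ W := by
    rintro p ⟨hp1, hp2⟩
    refine ⟨⟨hKU ⟨hp1, hp2⟩, ?_⟩, hsegW₁ hp2, ?_⟩
    · rw [mem_closedBall_zero_iff] at hp1
      show ‖p.1‖ < 2
      linarith
    · rw [mem_closedBall_zero_iff] at hp1
      have h := norm_real hκ hθ (by linarith) hp1 hp2.1 hp2.2
      show N p < 1 - 3 * t / 4
      have : N p ≤ 1 - θ / Real.cosh κ ^ 2 := h
      rw [← hC, ← ht] at this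
      linarith
  refine ⟨WithLp 2 (H × ℂ), inferInstance, inferInstance, ?_, Φ, V, W, hV, hVball, hΦdiff,
    hΦmaps, hWo, hKW, fun p hp => hp.1.1, ?_⟩
  · exact Module.Finite.equiv e.toLinearEquiv.symm
  intro ε hε
  have : ProperSpace (WithLp 2 (H × ℂ)) := by
    have : FiniteDimensional ℂ (WithLp 2 (H × ℂ)) := Module.Finite.equiv e.toLinearEquiv.symm
    exact FiniteDimensional.proper ℂ _
  have hunif : UniformContinuousOn Φ (closedBall 0 1) :=
    (isCompact_closedBall 0 1).uniformContinuousOn_of_continuous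
      (hΦdiff.continuousOn.mono hVball)
  rw [Metric.uniformContinuousOn_iff] at hunif
  obtain ⟨δ', hδ', hunif⟩ := hunif ε hε
  obtain ⟨η, hη, hη1, hη2⟩ : ∃ η : ℝ, 0 < η ∧ 3 * η ≤ r - r₀ ∧ 3 * η < r * δ' := by
    refine ⟨min ((r - r₀) / 3) (r * δ' / 4), ?_, ?_, ?_⟩
    · have : 0 < r - r₀ := by linarith
      positivity
    · have := min_le_left ((r - r₀) / 3) (r * δ' / 4)
      linarith
    · have := min_le_right ((r - r₀) / 3) (r * δ' / 4)
      have : 0 < r * δ' := by positivity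
      linarith
  obtain ⟨f, g, hf, hg, hfg⟩ := happ η hη
  refine ⟨fun p => ((r : ℂ)⁻¹) • e.symm (Psi0 θ f g p), ?_, ?_⟩
  · have h1 : Differentiable ℂ (Psi0 θ f g : H × ℂ → H × ℂ) := by
      unfold Psi0
      fun_prop
    have h2 : Differentiable ℂ (fun p : H × ℂ => e.symm (Psi0 θ f g p)) :=
      e.symm.differentiable.comp h1
    exact h2.const_smul ((r : ℂ)⁻¹)
  intro p hp
  obtain ⟨⟨-, hp2⟩, hpS, hpN⟩ := hp
  have hp2' : ‖p.1‖ < 2 := hp2
  obtain ⟨hf1, hg1⟩ := hfg p.2 hpS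
  -- the exact point
  have hexact : ‖e.symm (Psi0 θ c₀ t₀ p)‖ ≤ r₀ := by
    have h := WithLp.prod_norm_sq_eq_of_L2 (e.symm (Psi0 θ c₀ t₀ p))
    have h2 : ‖e.symm (Psi0 θ c₀ t₀ p)‖ ^ 2 = N p := h
    have h3 : N p < 1 - 3 * t / 4 := hpN
    rw [← h2, ← hr₀sq] at h3
    exact (sq_le_sq₀ (norm_nonneg _) hr₀0.le).1 h3.le
  have hdiff : ‖e.symm (Psi0 θ f g p) - e.symm (Psi0 θ c₀ t₀ p)‖ ≤ 3 * η := by
    have h1 : e.symm (Psi0 θ f g p) - e.symm (Psi0 θ c₀ t₀ p) =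
        WithLp.toLp 2 (((1 - θ : ℝ) : ℂ) • (f p.2 - c₀ p.2) • p.1, g p.2 - t₀ p.2) := by
      rw [← map_sub]
      have : Psi0 θ f g p - Psi0 θ c₀ t₀ p =
        (((1 - θ : ℝ) : ℂ) • (f p.2 - c₀ p.2) • p.1, g p.2 - t₀ p.2) := by
        unfold Psi0
        rw [Prod.mk_sub_mk, sub_smul, smul_sub]
      rw [this]
      rfl
    rw [h1]
    refine (norm_symm_le _ _).trans ?_
    rw [norm_smul, norm_smul, Complex.norm_real, Real.norm_eq_abs,
      abs_of_pos (by linarith : (0 : ℝ) < 1 - θ)]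
    have h2 : ‖f p.2 - c₀ p.2‖ * ‖p.1‖ ≤ η * 2 :=
      mul_le_mul hf1.le hp2'.le (norm_nonneg _) hη.le
    have h3 : (1 - θ) * (‖f p.2 - c₀ p.2‖ * ‖p.1‖) ≤ 1 * (η * 2) :=
      mul_le_mul (by linarith) h2 (by positivity) (by norm_num)
    linarith
  have hrinv : ‖(r : ℂ)⁻¹‖ = r⁻¹ := by
    rw [norm_inv, Complex.norm_real, Real.norm_eq_abs, abs_of_pos hr0]
  have hn1 : ‖(r : ℂ)⁻¹ • e.symm (Psi0 θ c₀ t₀ p)‖ ≤ 1 := by
    rw [norm_smul, hrinv, inv_mul_le_iff₀ hr0]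
    linarith
  have hn2 : ‖(r : ℂ)⁻¹ • e.symm (Psi0 θ f g p)‖ ≤ 1 := by
    rw [norm_smul, hrinv, inv_mul_le_iff₀ hr0]
    have h1 : ‖e.symm (Psi0 θ f g p)‖ ≤ ‖e.symm (Psi0 θ f g p) - e.symm (Psi0 θ c₀ t₀ p)‖ +
        ‖e.symm (Psi0 θ c₀ t₀ p)‖ := by
      have := norm_add_le (e.symm (Psi0 θ f g p) - e.symm (Psi0 θ c₀ t₀ p))
        (e.symm (Psi0 θ c₀ t₀ p))
      rwa [sub_add_cancel] at this
    linarith
  refine ⟨hn2, ?_⟩
  have hΦe : Φ ((r : ℂ)⁻¹ • e.symm (Psi0 θ c₀ t₀ p)) = p := by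
    have hr_ne : (r : ℂ) ≠ 0 := by exact_mod_cast hr0.ne'
    show Phi0 θ κ (e ((r : ℂ) • (r : ℂ)⁻¹ • e.symm (Psi0 θ c₀ t₀ p))) = p
    rw [smul_inv_smul₀ hr_ne, ContinuousLinearEquiv.apply_symm_apply]
    exact Phi0_Psi0 (by linarith) hκ (hW₁im _ hpS)
  have h := hunif ((r : ℂ)⁻¹ • e.symm (Psi0 θ f g p)) (mem_closedBall_zero_iff.2 hn2)
    ((r : ℂ)⁻¹ • e.symm (Psi0 θ c₀ t₀ p)) (mem_closedBall_zero_iff.2 hn1) ?_
  · rw [hΦe, dist_eq_norm] at h
    exact h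
  · rw [dist_eq_norm, ← smul_sub, norm_smul, hrinv, inv_mul_lt_iff₀ hr0]
    linarith

end Pool.Agent.Helper16.OKA
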